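import Pool.Agent.TH582.Mass.G
import Pool.Agent.Helper481.MB6

/-!
The maximum of Gromov's mass of the unit ball over all `o`-symmetric convex bodies, in every
dimension `d ≥ 1`: it is the volume `κ_d = π^(d/2) / Γ(d/2 + 1)` of the Euclidean unit ball, and it
is attained exactly by the ellipsoids centred at the origin.
-/

set_option autoImplicit false
open MeasureTheory Set Module Topology
open Metric hiding eball

namespace Pool.Agent.Results.MP_77d991_gt.MassMaximum

variable {d : ℕ}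

/-- `o`-symmetric convex body of `ℝ ^ d` -/
structure IsSymBody (M : Set (Fin d → ℝ)) : Prop where
  isCompact : IsCompact M
  convex : Convex ℝ M
  interior_nonempty : (interior M).Nonempty
  neg_mem : ∀ x ∈ M, -x ∈ M

/-- the cross-polytope `conv {± v_1, ..., ± v_d}` -/
def crossPolytope (v : Fin d → Fin d → ℝ) : Set (Fin d → ℝ) :=
  convexHull ℝ (range v ∪ range fun i => -v i)

/-- the volumes of the cross-polytopes inscribed in `M` -/
def crossVolumes (M : Set (Fin d → ℝ)) : Set ℝ :=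
  {r | ∃ v : Fin d → Fin d → ℝ, (∀ i, v i ∈ M) ∧ LinearIndependent ℝ v ∧
    r = (volume (crossPolytope v)).toReal}

/-- Gromov's mass of the unit ball `M` -/
noncomputable def mass (M : Set (Fin d → ℝ)) : ℝ :=
  2 ^ d / d.factorial * ((volume M).toReal / sSup (crossVolumes M))

/-- ellipsoids centred at the origin: images of the Euclidean unit ball under invertible linear
maps -/
def IsEllipsoid (M : Set (Fin d → ℝ)) : Prop :=
  ∃ T : (Fin d → ℝ) ≃ₗ[ℝ] (Fin d → ℝ), M = T '' {x | ∑ i, x i ^ 2 ≤ 1}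

/-- the volume of the Euclidean unit ball of `ℝ ^ d` -/
noncomputable def ballVolume (d : ℕ) : ℝ := √Real.pi ^ d / Real.Gamma (d / 2 + 1)

open Pool.Agent.Helper481.MB (kappa eball macbeath_pi det_eball eball_compact eball_convex kap_eq
  vol_std)
open Pool.Agent.Helper481.MS (std vol_cross std_body)

lemma kappa_eq (m : ℕ) : kappa (m + 1) = ENNReal.ofReal (ballVolume (m + 1)) := by
  rw [← kap_eq, Pool.Agent.Helper481.RH.kap, EuclideanSpace.volume_closedBall]
  simp [ballVolume]

lemma ballVolume_pos (d : ℕ) : 0 < ballVolume d := by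
  unfold ballVolume
  have h1 : 0 < Real.Gamma ((d : ℝ) / 2 + 1) := Real.Gamma_pos_of_pos (by positivity)
  have h2 : 0 < √Real.pi := Real.sqrt_pos.2 Real.pi_pos
  positivity

lemma zero_mem_nhds {M : Set (Fin d → ℝ)} (hM : IsSymBody M) : M ∈ 𝓝 (0 : Fin d → ℝ) := by
  obtain ⟨x, hx⟩ := hM.interior_nonempty
  have h1 : -x ∈ M := hM.neg_mem x (interior_subset hx)
  have h2 := hM.convex.combo_interior_self_mem_interior hx h1
    (show (0:ℝ) < 1 / 2 by norm_num) (show (0:ℝ) ≤ 1 / 2 by norm_num) (by norm_num)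
  have h3 : (1 / 2 : ℝ) • x + (1 / 2 : ℝ) • (-x) = 0 := by module
  rw [h3] at h2
  exact mem_interior_iff_mem_nhds.1 h2

lemma exists_det {M : Set (Fin d → ℝ)} (hM : IsSymBody M) :
    ∃ v : Fin d → Fin d → ℝ, (∀ i, v i ∈ M) ∧ 0 < |(Matrix.of v).det| ∧
      ∀ w : Fin d → Fin d → ℝ, (∀ i, w i ∈ M) → |(Matrix.of w).det| ≤ |(Matrix.of v).det| := by
  have hcpt : IsCompact (Set.univ.pi (fun _ : Fin d => M)) :=
    isCompact_univ_pi fun _ => hM.isCompact
  obtain ⟨r, hr, hball⟩ := Metric.mem_nhds_iff.1 (zero_mem_nhds hM)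
  have hne : (Set.univ.pi (fun _ : Fin d => M)).Nonempty :=
    ⟨fun _ => 0, fun _ _ => hball (by simpa using hr)⟩
  have hcont : Continuous fun v : Fin d → Fin d → ℝ => |(Matrix.of v).det| :=
    (Continuous.matrix_det continuous_id).abs
  obtain ⟨v, hv, hmax⟩ := hcpt.exists_isMaxOn hne hcont.continuousOn
  refine ⟨v, fun i => hv i (mem_univ i), ?_, fun w hw => hmax (show w ∈
    Set.univ.pi (fun _ : Fin d => M) from fun i _ => hw i)⟩
  have h1 : (fun i => Pi.single i (r / 2) : Fin d → Fin d → ℝ) ∈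
      Set.univ.pi (fun _ : Fin d => M) := by
    intro i _
    apply hball
    rw [mem_ball_zero_iff, pi_norm_lt_iff hr]
    intro j
    show ‖(Pi.single i (r / 2) : Fin d → ℝ) j‖ < r
    by_cases hij : j = i
    · subst hij
      rw [Pi.single_eq_same, Real.norm_of_nonneg (by positivity)]
      linarith
    · rw [Pi.single_eq_of_ne hij]
      simpa using hr
  have h2 := hmax h1
  have h3 : (Matrix.of (fun i => Pi.single i (r / 2) : Fin d → Fin d → ℝ)) =
      Matrix.diagonal (fun _ => r / 2) := by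
    ext i j
    by_cases hij : i = j
    · subst hij
      simp
    · rw [Matrix.diagonal_apply_ne _ hij]
      simp [Ne.symm hij]
  simp only [mem_ofPred_eq] at h2
  rw [h3, Matrix.det_diagonal] at h2
  refine lt_of_lt_of_le ?_ h2
  simp only [Finset.prod_const]
  positivity

lemma cross_volume (hd : 1 ≤ d) (v : Fin d → Fin d → ℝ) :
    (volume (crossPolytope v)).toReal = |(Matrix.of v).det| * (2 ^ d / d.factorial) := by
  have h1 : crossPolytope v = Pool.Agent.Helper481.MS.crossPolytope 0 v := by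
    unfold crossPolytope Pool.Agent.Helper481.MS.crossPolytope
    simp
  rw [h1, vol_cross, vol_std hd, ENNReal.toReal_mul, ENNReal.toReal_ofReal (abs_nonneg _),
    ENNReal.toReal_ofReal (by positivity)]

lemma greatest {M : Set (Fin d → ℝ)} (hd : 1 ≤ d) {v : Fin d → Fin d → ℝ} (hv : ∀ i, v i ∈ M)
    (hpos : 0 < |(Matrix.of v).det|)
    (hmax : ∀ w : Fin d → Fin d → ℝ, (∀ i, w i ∈ M) → |(Matrix.of w).det| ≤ |(Matrix.of v).det|) :
    IsGreatest (crossVolumes M) (|(Matrix.of v).det| * (2 ^ d / d.factorial)) := by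
  constructor
  · refine ⟨v, hv, ?_, (cross_volume hd v).symm⟩
    have h1 : IsUnit (Matrix.of v) := by
      rw [Matrix.isUnit_iff_isUnit_det, isUnit_iff_ne_zero]
      exact abs_pos.1 hpos
    exact Matrix.linearIndependent_rows_iff_isUnit.2 h1
  · rintro _ ⟨w, hw, -, rfl⟩
    rw [cross_volume hd]
    exact mul_le_mul_of_nonneg_right (hmax w hw) (by positivity)

lemma mass_eq {M : Set (Fin d → ℝ)} (hd : 1 ≤ d) {v : Fin d → Fin d → ℝ} (hv : ∀ i, v i ∈ M)
    (hpos : 0 < |(Matrix.of v).det|)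
    (hmax : ∀ w : Fin d → Fin d → ℝ, (∀ i, w i ∈ M) → |(Matrix.of w).det| ≤ |(Matrix.of v).det|) :
    mass M = (volume M).toReal / |(Matrix.of v).det| := by
  rw [mass, (greatest hd hv hpos hmax).csSup_eq]
  have h1 : (0:ℝ) < 2 ^ d / d.factorial := by positivity
  field_simp

lemma eball_body (d : ℕ) : IsSymBody (eball d) := by
  refine ⟨eball_compact d, eball_convex d, ?_, ?_⟩
  · refine ⟨0, ?_⟩
    have h1 : IsOpen {x : Fin d → ℝ | ∑ i, x i ^ 2 < 1} := isOpen_lt (by fun_prop) continuous_const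
    have h2 : {x : Fin d → ℝ | ∑ i, x i ^ 2 < 1} ⊆ eball d := by
      intro x hx
      have hx' : ∑ i, x i ^ 2 < 1 := hx
      exact hx'.le
    refine interior_maximal h2 h1 ?_
    simp
  · intro x hx
    have hx' : ∑ i, x i ^ 2 ≤ 1 := hx
    show ∑ i, (-x) i ^ 2 ≤ 1
    simpa using hx'

lemma det_comp_map (T : (Fin d → ℝ) ≃ₗ[ℝ] (Fin d → ℝ)) (v : Fin d → Fin d → ℝ) :
    (Matrix.of fun i => T (v i)).det =
      (Matrix.of v).det * LinearMap.det (T : (Fin d → ℝ) →ₗ[ℝ] (Fin d → ℝ)) :=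
  Pool.Agent.Helper481.MB.det_map T.toContinuousLinearEquiv v

/-- ellipsoids attain the bound -/
lemma mass_ellipsoid {m : ℕ} {M : Set (Fin (m + 1) → ℝ)} (hE : IsEllipsoid M) :
    IsSymBody M ∧ ballVolume (m + 1) ≤ mass M := by
  obtain ⟨T, rfl⟩ := hE
  have hB := eball_body (m + 1)
  have hset : {x : Fin (m + 1) → ℝ | ∑ i, x i ^ 2 ≤ 1} = eball (m + 1) := rfl
  rw [hset]
  have hT : T '' eball (m + 1) = T.toContinuousLinearEquiv '' eball (m + 1) := rfl
  have hbody : IsSymBody (T '' eball (m + 1)) := by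
    refine ⟨?_, hB.convex.linear_image (T : (Fin (m + 1) → ℝ) →ₗ[ℝ] (Fin (m + 1) → ℝ)), ?_, ?_⟩
    · rw [hT]; exact hB.isCompact.image T.toContinuousLinearEquiv.continuous
    · obtain ⟨x, hx⟩ := hB.interior_nonempty
      refine ⟨T x, ?_⟩
      have h5 := T.toContinuousLinearEquiv.toHomeomorph.image_interior (eball (m + 1))
      have h6 : T x ∈ T.toContinuousLinearEquiv.toHomeomorph '' interior (eball (m + 1)) :=
        ⟨x, hx, rfl⟩
      rw [h5] at h6
      exact h6
    · rintro _ ⟨x, hx, rfl⟩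
      exact ⟨-x, hB.neg_mem x hx, by rw [map_neg]⟩
  refine ⟨hbody, ?_⟩
  obtain ⟨v, hv, hpos, hmax⟩ := exists_det hbody
  rw [mass_eq (Nat.le_add_left 1 m) hv hpos hmax]
  set D : ℝ := |LinearMap.det (T : (Fin (m + 1) → ℝ) →ₗ[ℝ] (Fin (m + 1) → ℝ))| with hD
  have hDpos : 0 < D := abs_pos.2 (LinearEquiv.isUnit_det' T).ne_zero
  have h1 : |(Matrix.of v).det| ≤ D := by
    choose x hx hxv using hv
    have h2 : v = fun i => T (x i) := by
      funext i
      exact (hxv i).symm
    rw [h2, det_comp_map, abs_mul]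
    have := det_eball x hx
    nlinarith
  have h2 : (volume (T '' eball (m + 1))).toReal = D * ballVolume (m + 1) := by
    have h3 := Measure.addHaar_image_linearMap (volume : Measure (Fin (m + 1) → ℝ))
      (T : (Fin (m + 1) → ℝ) →ₗ[ℝ] (Fin (m + 1) → ℝ)) (eball (m + 1))
    have h4 : volume (T '' eball (m + 1)) = ENNReal.ofReal D * kappa (m + 1) := h3
    rw [h4, kappa_eq, ENNReal.toReal_mul, ENNReal.toReal_ofReal hDpos.le,
      ENNReal.toReal_ofReal (ballVolume_pos _).le]
  rw [h2, le_div_iff₀ hpos, mul_comm D]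
  exact mul_le_mul_of_nonneg_left h1 (ballVolume_pos _).le

/-- the upper bound -/
lemma mass_le {m : ℕ} {M : Set (Fin (m + 1) → ℝ)} (hM : IsSymBody M) :
    mass M ≤ ballVolume (m + 1) := by
  obtain ⟨v, hv, hpos, hmax⟩ := exists_det hM
  rw [mass_eq (Nat.le_add_left 1 m) hv hpos hmax, div_le_iff₀ hpos]
  have h1 := macbeath_pi (m + 1) hM.isCompact hM.convex hmax
  rw [kappa_eq, ← ENNReal.ofReal_mul (ballVolume_pos _).le] at h1
  have h2 := ENNReal.toReal_mono ENNReal.ofReal_ne_top h1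
  rwa [ENNReal.toReal_ofReal (mul_nonneg (ballVolume_pos _).le (abs_nonneg _))] at h2

/-- the case of equality -/
lemma ellipsoid_of_eq {m : ℕ} {M : Set (Fin (m + 1) → ℝ)} (hM : IsSymBody M)
    (h : mass M = ballVolume (m + 1)) : IsEllipsoid M := by
  obtain ⟨v, hv, hpos, hmax⟩ := exists_det hM
  rw [mass_eq (Nat.le_add_left 1 m) hv hpos hmax, div_eq_iff hpos.ne'] at h
  set A : ℝ := |(Matrix.of v).det| with hA
  set E := EuclideanSpace.equiv (Fin (m + 1)) ℝ with hE
  set M' : Set (EuclideanSpace ℝ (Fin (m + 1))) := E.symm '' M with hM'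
  have hM'2 : M' = (WithLp.ofLp : EuclideanSpace ℝ (Fin (m + 1)) → Fin (m + 1) → ℝ) ⁻¹' M := by
    rw [hM']
    exact E.toEquiv.symm.image_eq_preimage_symm M
  have hvol : volume M' = volume M := by
    rw [hM'2]
    exact (PiLp.volume_preserving_ofLp (Fin (m + 1))).measure_preimage
      hM.isCompact.measurableSet.nullMeasurableSet
  have hc : IsCompact M' := hM.isCompact.image E.symm.continuous
  have hcv : Convex ℝ M' := hM.convex.linear_image E.symm.toLinearMap
  have h0 : M' ∈ 𝓝 (0 : EuclideanSpace ℝ (Fin (m + 1))) := by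
    have h1 := E.symm.toHomeomorph.isOpenMap.image_mem_nhds (zero_mem_nhds hM)
    have h2 : E.symm.toHomeomorph (0 : Fin (m + 1) → ℝ) = 0 := map_zero E.symm
    rw [h2] at h1
    exact h1
  have hneg : ∀ x ∈ M', -x ∈ M' := by
    rintro _ ⟨x, hx, rfl⟩
    exact ⟨-x, hM.neg_mem x hx, by rw [map_neg]⟩
  have hD : Pool.Agent.Helper481.MB.PropD M' A := by
    intro w hw
    have h2 := hmax (fun i => WithLp.ofLp (w i)) (fun i => by
      have := hw i
      rw [hM'2] at this
      exact this)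
    rw [Pool.Agent.Helper481.MB.adet, Basis.det_apply]
    have h3 : (EuclideanSpace.basisFun (Fin (m + 1)) ℝ).toBasis.toMatrix w =
        (Matrix.of fun i => WithLp.ofLp (w i)).transpose := by
      ext i j
      rw [Basis.toMatrix_apply]
      rfl
    rw [h3, Matrix.det_transpose]
    exact h2
  have hv' : volume M' = Pool.Agent.Helper481.RH.kap (m + 1) * ENNReal.ofReal A := by
    rw [hvol, kap_eq, kappa_eq, ← ENNReal.ofReal_mul (ballVolume_pos _).le, ← h,
      ENNReal.ofReal_toReal hM.isCompact.measure_lt_top.ne]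
  obtain ⟨T, hT⟩ := Pool.Agent.TH582.Mass.eq_ellipsoid hc hcv h0 hneg hpos hD hv'
  refine ⟨(E.symm.toLinearEquiv.trans T).trans E.toLinearEquiv, ?_⟩
  have h1 : M = E '' M' := by
    rw [hM', image_image]
    simp
  have h2 : {x : Fin (m + 1) → ℝ | ∑ i, x i ^ 2 ≤ 1} =
      E '' (closedBall (0 : EuclideanSpace ℝ (Fin (m + 1))) 1) := by
    rw [← Pool.Agent.Helper481.MB.ofLp_preimage_eball]
    exact (image_preimage_eq _ (WithLp.ofLp_surjective 2)).symm
  rw [h1, hT, h2, image_image, image_image]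
  refine image_congr fun x _ => ?_
  show E (T x) = E (T (E.symm (E x)))
  rw [E.symm_apply_apply]

/-- **The maximum of Gromov's mass.** Let `d ≥ 1`. For every `o`-symmetric convex body `M` of
`ℝ ^ d` an inscribed cross-polytope of maximal volume exists. The greatest value of `mass M` over
all these bodies is the volume of the Euclidean unit ball, and it is attained exactly by the
ellipsoids centred at the origin. -/
theorem result (d : ℕ) (hd : 1 ≤ d) :
    (∀ M : Set (Fin d → ℝ), IsSymBody M → ∃ r, 0 < r ∧ IsGreatest (crossVolumes M) r) ∧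
    IsGreatest {t : ℝ | ∃ M : Set (Fin d → ℝ), IsSymBody M ∧ t = mass M} (ballVolume d) ∧
    ∀ M : Set (Fin d → ℝ), IsSymBody M → (mass M = ballVolume d ↔ IsEllipsoid M) := by
  obtain ⟨m, rfl⟩ : ∃ m, d = m + 1 := ⟨d - 1, by omega⟩
  refine ⟨fun M hM => ?_, ⟨?_, ?_⟩, fun M hM => ⟨ellipsoid_of_eq hM, fun hE => ?_⟩⟩
  · obtain ⟨v, hv, hpos, hmax⟩ := exists_det hM
    exact ⟨_, by positivity, greatest hd hv hpos hmax⟩
  · have hE : IsEllipsoid (eball (m + 1)) := by
      refine ⟨LinearEquiv.refl ℝ _, ?_⟩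
      ext x
      constructor
      · intro hx
        exact ⟨x, hx, rfl⟩
      · rintro ⟨y, hy, rfl⟩
        exact hy
    obtain ⟨h1, h2⟩ := mass_ellipsoid hE
    exact ⟨_, h1, le_antisymm h2 (mass_le h1)⟩
  · rintro _ ⟨M, hM, rfl⟩
    exact mass_le hM
  · exact le_antisymm (mass_le hM) (mass_ellipsoid hE).2

end Pool.Agent.Results.MP_77d991_gt.MassMaximum
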